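import Mathlib
import Pool.Agent.Helper64.RN.Goals

set_option autoImplicit false

universe u

namespace Pool.Agent.Helper14.RN.UB

open Pool.Agent.Helper64.RN Pool.Agent.Helper64.IG

theorem dec_le {E : Type*} [DecidableEq E] {lam : Finset E → ℕ} {w : ℕ} {A : Finset E}
    (h : Dec lam w A) : lam A ≤ w := by
  cases h with
  | single e he => exact he
  | join A B _ _ _ hl => exact hl

theorem split {E : Type*} [DecidableEq E] {lam : Finset E → ℕ} {w N : ℕ} (hN : 2 ≤ N)
    {X : Finset E} (h : Dec lam w X) :
    2 * N < 3 * X.card → ∃ Z : Finset E, lam Z ≤ w ∧ N ≤ 3 * Z.card ∧ 3 * Z.card ≤ 2 * N := by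
  induction h with
  | single e he =>
    intro h3
    simp only [Finset.card_singleton] at h3
    omega
  | join A B hd hA hB hl ihA ihB =>
    intro h3
    rw [Finset.card_union_of_disjoint hd] at h3
    by_cases h1 : 2 * N < 3 * A.card
    · exact ihA h1
    · by_cases h2 : 2 * N < 3 * B.card
      · exact ihB h2
      · by_cases h4 : N ≤ 3 * A.card
        · exact ⟨A, dec_le hA, h4, by omega⟩
        · exact ⟨B, dec_le hB, by omega, by omega⟩

theorem rk_ge {K : Type u} [Field K] {p : ℕ} (ω : Form K p p) (h : Unif ω)
    (X : Finset (Ix p p)) : min X.card p ≤ rk ω X := by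
  classical
  have hcard : (Finset.univ : Finset (Ix p p)).card = p + p := by
    simp [Ix]
  obtain ⟨S, hSc, hS⟩ : ∃ S : Finset (Ix p p), S.card = p ∧
      (X ⊆ S ∨ S ⊆ X) := by
    by_cases hx : X.card ≤ p
    · obtain ⟨S, h1, h2, h3⟩ := Finset.exists_subsuperset_card_eq (Finset.subset_univ X) hx
        (by rw [hcard]; omega)
      exact ⟨S, h3, Or.inl h1⟩
    · obtain ⟨S, h1, h3⟩ := Finset.exists_subset_card_eq (s := X) (n := p) (by omega)
      exact ⟨S, h3, Or.inr h1⟩
  let e := S.equivFinOfCardEq hSc
  let a : Fin p → Ix p p := fun j => (e.symm j : Ix p p)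
  have ha : Function.Injective a := fun i j hij => e.symm.injective (Subtype.ext hij)
  have hsup : (Finset.univ.filter fun j => a j ∈ X).card ≤ rk ω X := by
    unfold rk
    have := Finset.le_sup (s := Finset.univ.filter fun a : Fin p → Ix p p => ω a ≠ 0)
      (f := fun a => (Finset.univ.filter fun j => a j ∈ X).card)
      (b := a) (by simp [h a ha])
    convert this
  refine le_trans ?_ hsup
  rcases hS with hS | hS
  · refine le_trans (min_le_left _ _) ?_
    have : X ⊆ (Finset.univ.filter fun j => a j ∈ X).image a := by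
      intro x hx
      rw [Finset.mem_image]
      refine ⟨e ⟨x, hS hx⟩, ?_, ?_⟩
      · simp only [Finset.mem_filter, Finset.mem_univ, true_and]
        simp only [a, Equiv.symm_apply_apply]
        exact hx
      · simp only [a, Equiv.symm_apply_apply]
    exact (Finset.card_le_card this).trans Finset.card_image_le
  · refine le_trans (min_le_right _ _) ?_
    have : (Finset.univ.filter fun j => a j ∈ X) = Finset.univ := by
      apply Finset.filter_true_of_mem
      intro j _
      exact hS (e.symm j).2
    rw [this]
    simp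

theorem t : S_UB.{u} := by
  intro K _ p w ω hu hp hb
  classical
  have hcard : (Finset.univ : Finset (Ix p p)).card = 2 * p := by
    simp [Ix]; ring
  obtain ⟨Z, hZ, h1, h2⟩ := split (N := 2 * p) (by omega) hb (by rw [hcard]; omega)
  have hc : Z.card + Zᶜ.card = 2 * p := by
    rw [← hcard, Finset.card_add_card_compl, Finset.card_univ]
  have r1 := rk_ge ω hu Z
  have r2 := rk_ge ω hu Zᶜ
  unfold conn at hZ
  omega

end Pool.Agent.Helper14.RN.UB
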